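import Mathlib

set_option autoImplicit false

/-!
# A uniformly convex space and a finite metric space which embeds almost isometrically only

`X` is the `ℓ₂`-sum of the planes with the norms `N_t (a, b) ^ 2 = a ^ 2 + b ^ 2 + 2 t |a b|` for a sequence
`t < 1 / 2` tending to `1 / 2`, and the finite metric space consists of six points of the grid
`{-1, 0, 1} ^ 2` in the norm `N_{1/2}`.  The mathematical proof is by helper276.
-/

open scoped ENNReal

namespace Pool.Agent.Results.MP_6d826c_an.GridInSumOfPlanes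

/-- the parameters -/
def Par : Type := {t : ℝ // 0 ≤ t ∧ t ≤ 1 / 2}

/-- the plane; it gets the norm `N_t` below -/
def Pl (_ : Par) : Type := ℝ × ℝ

instance (t : Par) : AddCommGroup (Pl t) := inferInstanceAs (AddCommGroup (ℝ × ℝ))
noncomputable instance (t : Par) : Module ℝ (Pl t) := inferInstanceAs (Module ℝ (ℝ × ℝ))

namespace Pl

variable {t : Par}

/-- a point of the plane -/
def mk (a b : ℝ) : Pl t := (a, b)
/-- the first coordinate -/
def x (p : Pl t) : ℝ := Prod.fst (α := ℝ) (β := ℝ) p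
/-- the second coordinate -/
def y (p : Pl t) : ℝ := Prod.snd (α := ℝ) (β := ℝ) p

@[simp] lemma x_mk (a b : ℝ) : (mk a b : Pl t).x = a := rfl
@[simp] lemma y_mk (a b : ℝ) : (mk a b : Pl t).y = b := rfl
@[simp] lemma x_add (p q : Pl t) : (p + q).x = p.x + q.x := rfl
@[simp] lemma y_add (p q : Pl t) : (p + q).y = p.y + q.y := rfl
@[simp] lemma x_sub (p q : Pl t) : (p - q).x = p.x - q.x := rfl
@[simp] lemma y_sub (p q : Pl t) : (p - q).y = p.y - q.y := rfl
@[simp] lemma x_zero : (0 : Pl t).x = 0 := rfl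
@[simp] lemma y_zero : (0 : Pl t).y = 0 := rfl
@[simp] lemma x_smul (c : ℝ) (p : Pl t) : (c • p).x = c * p.x := rfl
@[simp] lemma y_smul (c : ℝ) (p : Pl t) : (c • p).y = c * p.y := rfl

lemma ext {p q : Pl t} (h1 : p.x = q.x) (h2 : p.y = q.y) : p = q := Prod.ext h1 h2

end Pl

/-- the linear map to `ℂ × ℂ` (maximum norm) which induces the norm `N_t` -/
noncomputable def L (t : Par) : Pl t →ₗ[ℝ] ℂ × ℂ where
  toFun p := (⟨p.x + t.1 * p.y, √(1 - t.1 ^ 2) * p.y⟩, ⟨p.x - t.1 * p.y, √(1 - t.1 ^ 2) * p.y⟩)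
  map_add' p q := by
    refine Prod.ext ?_ ?_ <;> apply Complex.ext <;> simp <;> ring
  map_smul' c p := by
    refine Prod.ext ?_ ?_ <;> apply Complex.ext <;> simp <;> ring

lemma sq_pos (t : Par) : 0 < 1 - t.1 ^ 2 := by
  have := t.2.1; have := t.2.2; nlinarith

lemma L_inj (t : Par) : Function.Injective (L t) := by
  intro p q h
  have h1 := congrArg (fun z => z.1.re) h
  have h2 := congrArg (fun z => z.1.im) h
  simp only [L, LinearMap.coe_mk, AddHom.coe_mk] at h1 h2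
  have h3 : √(1 - t.1 ^ 2) ≠ 0 := (Real.sqrt_pos.2 (sq_pos t)).ne'
  have h4 : p.y = q.y := mul_left_cancel₀ h3 h2
  rw [h4] at h1
  exact Pl.ext (by linarith) h4

noncomputable instance (t : Par) : NormedAddCommGroup (Pl t) :=
  NormedAddCommGroup.induced (Pl t) (ℂ × ℂ) (L t) (L_inj t)
noncomputable instance (t : Par) : NormedSpace ℝ (Pl t) := NormedSpace.induced ℝ (Pl t) (ℂ × ℂ) (L t)

instance (t : Par) : FiniteDimensional ℝ (Pl t) := inferInstanceAs (FiniteDimensional ℝ (ℝ × ℝ))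
instance (t : Par) : CompleteSpace (Pl t) := FiniteDimensional.complete ℝ (Pl t)

lemma norm_def (t : Par) (p : Pl t) : ‖p‖ = max ‖(L t p).1‖ ‖(L t p).2‖ := rfl

/-- the formula for the norm -/
lemma nsq (t : Par) (p : Pl t) : ‖p‖ ^ 2 = p.x ^ 2 + p.y ^ 2 + 2 * t.1 * |p.x * p.y| := by
  have e1 : ‖(L t p).1‖ ^ 2 = p.x ^ 2 + p.y ^ 2 + 2 * t.1 * (p.x * p.y) := by
    rw [Complex.sq_norm, Complex.normSq_apply]
    simp only [L, LinearMap.coe_mk, AddHom.coe_mk]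
    have := Real.mul_self_sqrt (sq_pos t).le
    linear_combination p.y ^ 2 * this
  have e2 : ‖(L t p).2‖ ^ 2 = p.x ^ 2 + p.y ^ 2 - 2 * t.1 * (p.x * p.y) := by
    rw [Complex.sq_norm, Complex.normSq_apply]
    simp only [L, LinearMap.coe_mk, AddHom.coe_mk]
    have := Real.mul_self_sqrt (sq_pos t).le
    linear_combination p.y ^ 2 * this
  have ht := t.2.1
  rw [norm_def]
  rcases le_total 0 (p.x * p.y) with h | h
  · have h3 : 0 ≤ t.1 * (p.x * p.y) := mul_nonneg ht h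
    rw [abs_of_nonneg h, max_eq_left, e1]
    exact abs_le_of_sq_le_sq' (by rw [e1, e2]; linarith) (norm_nonneg _) |>.2
  · have h3 : 0 ≤ t.1 * (-(p.x * p.y)) := mul_nonneg ht (by linarith)
    rw [abs_of_nonpos h, max_eq_right, e2]
    · ring
    · exact abs_le_of_sq_le_sq' (by rw [e1, e2]; linarith) (norm_nonneg _) |>.2

/-- uniform convexity of the planes -/
lemma uc (t : Par) (p q : Pl t) : 3 * ‖p + q‖ ^ 2 + ‖p - q‖ ^ 2 ≤ 6 * (‖p‖ ^ 2 + ‖q‖ ^ 2) := by
  rw [nsq, nsq, nsq, nsq]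
  simp only [Pl.x_add, Pl.y_add, Pl.x_sub, Pl.y_sub]
  obtain ⟨ht0, ht1⟩ := t.2
  generalize t.1 = t at *
  generalize p.x = a at *
  generalize p.y = b at *
  generalize q.x = c at *
  generalize q.y = d at *
  have k1 : |(a + c) * (b + d)| ≤ 2 * (|a * b| + |c * d|) + |(a - c) * (b - d)| := by
    have e : (a + c) * (b + d) = 2 * (a * b) + 2 * (c * d) - (a - c) * (b - d) := by ring
    rw [e]
    refine (abs_sub _ _).trans ?_
    have := abs_add_le (2 * (a * b)) (2 * (c * d))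
    rw [abs_mul 2 (a * b), abs_mul 2 (c * d), abs_two] at this
    linarith
  have k2 : 2 * |(a - c) * (b - d)| ≤ (a - c) ^ 2 + (b - d) ^ 2 := by
    rw [abs_mul]
    nlinarith [sq_nonneg (|a - c| - |b - d|), sq_abs (a - c), sq_abs (b - d)]
  have k3 : t * |(a + c) * (b + d)| ≤ t * (2 * (|a * b| + |c * d|) + |(a - c) * (b - d)|) :=
    mul_le_mul_of_nonneg_left k1 ht0
  have k4 : t * |(a - c) * (b - d)| ≤ 1 / 2 * |(a - c) * (b - d)| :=
    mul_le_mul_of_nonneg_right ht1 (abs_nonneg _)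
  nlinarith

/-- the upper parallelogram inequality of the planes -/
lemma lc (t : Par) (p q : Pl t) : ‖p + q‖ ^ 2 + ‖p - q‖ ^ 2 ≤ (2 + 2 * t.1) * (‖p‖ ^ 2 + ‖q‖ ^ 2) := by
  rw [nsq, nsq, nsq, nsq]
  simp only [Pl.x_add, Pl.y_add, Pl.x_sub, Pl.y_sub]
  obtain ⟨ht0, ht1⟩ := t.2
  generalize t.1 = t at *
  generalize p.x = a at *
  generalize p.y = b at *
  generalize q.x = c at *
  generalize q.y = d at *
  have k0 : |(a + c) * (b + d)| + |(a - c) * (b - d)| ≤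
      2 * (|a * b| + |c * d|) + (a ^ 2 + b ^ 2 + c ^ 2 + d ^ 2) := by
    have h1 : |a * b| = |a| * |b| := abs_mul _ _
    have h2 : |c * d| = |c| * |d| := abs_mul _ _
    have h5 : 0 ≤ |a * b| := abs_nonneg _
    have h6 : 0 ≤ |c * d| := abs_nonneg _
    have h7 := le_abs_self (a * b)
    have h8 := neg_abs_le (a * b)
    have h9 := le_abs_self (c * d)
    have h10 := neg_abs_le (c * d)
    rcases abs_cases ((a + c) * (b + d)) with ⟨e1, _⟩ | ⟨e1, _⟩ <;>
      rcases abs_cases ((a - c) * (b - d)) with ⟨e2, _⟩ | ⟨e2, _⟩ <;> rw [e1, e2] <;>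
      nlinarith [sq_nonneg (a - d), sq_nonneg (a + d), sq_nonneg (c - b), sq_nonneg (c + b), sq_nonneg a,
        sq_nonneg b, sq_nonneg c, sq_nonneg d]
  have k1 : t * (|(a + c) * (b + d)| + |(a - c) * (b - d)|) ≤
      t * (2 * (|a * b| + |c * d|) + (a ^ 2 + b ^ 2 + c ^ 2 + d ^ 2)) :=
    mul_le_mul_of_nonneg_left k0 ht0
  have k2 : 0 ≤ t * t * (|a * b| + |c * d|) := by positivity
  nlinarith

/-- the parameters of the blocks -/
noncomputable def tt (n : ℕ) : Par := ⟨1 / 2 - 1 / (n + 3), by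
  have h : (1 : ℝ) / (n + 3) ≤ 1 / 2 := by
    apply one_div_le_one_div_of_le <;> [norm_num; (have : (0 : ℝ) ≤ n := Nat.cast_nonneg n; linarith)]
  linarith, by
  have h : (0 : ℝ) ≤ 1 / (n + 3) := by positivity
  linarith⟩

/-- the parameter `1 / 2` -/
noncomputable def hh : Par := ⟨1 / 2, by norm_num, le_rfl⟩

/-- the space -/
abbrev X : Type := lp (fun n : ℕ => Pl (tt n)) 2

lemma hs (v : X) : HasSum (fun n => ‖v n‖ ^ 2) (‖v‖ ^ 2) := by
  have h := lp.hasSum_norm (p := 2) (by norm_num) v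
  simpa using h

lemma ucX (u v : X) : 3 * ‖u + v‖ ^ 2 + ‖u - v‖ ^ 2 ≤ 6 * (‖u‖ ^ 2 + ‖v‖ ^ 2) := by
  have h1 := ((hs (u + v)).mul_left 3).add (hs (u - v))
  have h2 := ((hs u).add (hs v)).mul_left 6
  exact hasSum_le (fun n => uc (tt n) (u n) (v n)) h1 h2

lemma lcX (u v : X) (hu : u ≠ 0) : ‖u + v‖ ^ 2 + ‖u - v‖ ^ 2 < 3 * (‖u‖ ^ 2 + ‖v‖ ^ 2) := by
  have h1 := (hs (u + v)).add (hs (u - v))
  have h2 := ((hs u).add (hs v)).mul_left 3
  obtain ⟨n, hn⟩ : ∃ n, u n ≠ 0 := by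
    by_contra hcon
    push Not at hcon
    exact hu (lp.ext (funext hcon))
  have htt : ∀ n, (tt n).1 < 1 / 2 := fun n => by
    have : (0 : ℝ) < 1 / (n + 3) := by positivity
    show 1 / 2 - 1 / ((n : ℝ) + 3) < 1 / 2
    linarith
  refine hasSum_lt (i := n) (fun m => ?_) ?_ h1 h2
  · refine (lc (tt m) (u m) (v m)).trans ?_
    have := htt m
    exact mul_le_mul_of_nonneg_right (by linarith) (by positivity)
  · refine (lc (tt n) (u n) (v n)).trans_lt ?_
    have := htt n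
    have h3 : 0 < ‖u n‖ := norm_pos_iff.2 hn
    exact mul_lt_mul_of_pos_right (by linarith) (by positivity)

/-- the first coordinate of the `n`-th block, as a linear map -/
noncomputable def cx (n : ℕ) : X →ₗ[ℝ] ℝ where
  toFun w := (w n).x
  map_add' _ _ := rfl
  map_smul' _ _ := rfl

lemma not_fd : ¬ FiniteDimensional ℝ X := by
  intro hfd
  have hli : LinearIndependent ℝ (fun n : ℕ => (lp.single 2 n (Pl.mk 1 0 : Pl (tt n)) : X)) := by
    rw [linearIndependent_iff']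
    intro s g hg i hi
    have h1 := congrArg (cx i) hg
    rw [map_sum, map_zero, Finset.sum_eq_single_of_mem i hi] at h1
    · rw [map_smul] at h1
      have h2 : cx i (lp.single 2 i (Pl.mk 1 0 : Pl (tt i)) : X) = 1 := by
        show ((lp.single 2 i (Pl.mk 1 0 : Pl (tt i)) : X) i).x = 1
        rw [lp.single_apply_self]
        rfl
      rw [h2, smul_eq_mul, mul_one] at h1
      exact h1
    · intro j _ hj
      rw [map_smul]
      have h2 : cx i (lp.single 2 j (Pl.mk 1 0 : Pl (tt j)) : X) = 0 := by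
        show ((lp.single 2 j (Pl.mk 1 0 : Pl (tt j)) : X) i).x = 0
        rw [lp.single_apply_ne _ _ _ hj.symm]
        rfl
      rw [h2, smul_zero]
  exact Module.Finite.not_linearIndependent_of_infinite _ hli

lemma convex (ε : ℝ) (hε : 0 < ε) (_ : ε ≤ 2) : ∃ δ : ℝ, 0 < δ ∧ ∀ x y : X, ‖x‖ ≤ 1 → ‖y‖ ≤ 1 → ε ≤ ‖x - y‖ →
    ‖(2⁻¹ : ℝ) • (x + y)‖ ≤ 1 - δ := by
  refine ⟨ε ^ 2 / 24, by positivity, fun x y hx hy hxy => ?_⟩
  have h1 := ucX x y
  rw [norm_smul, norm_inv, Real.norm_ofNat]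
  have hx2 : ‖x‖ ^ 2 ≤ 1 := by have := norm_nonneg x; nlinarith
  have hy2 : ‖y‖ ^ 2 ≤ 1 := by have := norm_nonneg y; nlinarith
  have h2 : ε ^ 2 ≤ ‖x - y‖ ^ 2 := by nlinarith
  have h3 : ‖x + y‖ ^ 2 ≤ (2 * (1 - ε ^ 2 / 24)) ^ 2 := by nlinarith [sq_nonneg (ε ^ 2)]
  have h4 : 0 ≤ 2 * (1 - ε ^ 2 / 24) := by nlinarith
  have h5 := abs_le_of_sq_le_sq' h3 h4
  linarith [h5.2]

/-- the six points -/
def pts : Set (Pl hh) := {Pl.mk 0 0, Pl.mk 1 0, Pl.mk 0 1, Pl.mk 1 1, Pl.mk (-1) 1, Pl.mk 1 (-1)}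

lemma pts_finite : pts.Finite := by
  unfold pts
  exact Set.toFinite _

/-- the identity map from the limit plane to the `n`-th plane -/
noncomputable def cv (n : ℕ) (p : Pl hh) : Pl (tt n) := Pl.mk p.x p.y

lemma cv_upper (n : ℕ) (p : Pl hh) : ‖cv n p‖ ^ 2 ≤ ‖p‖ ^ 2 := by
  rw [nsq, nsq]
  unfold cv
  simp only [Pl.x_mk, Pl.y_mk]
  have h : (tt n).1 ≤ hh.1 := (tt n).2.2
  have := mul_le_mul_of_nonneg_right h (abs_nonneg (p.x * p.y))
  linarith

lemma cv_lower (n : ℕ) (p : Pl hh) : ‖p‖ ^ 2 ≤ (1 + 1 / ((n : ℝ) + 3)) * ‖cv n p‖ ^ 2 := by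
  rw [nsq, nsq]
  unfold cv
  simp only [Pl.x_mk, Pl.y_mk]
  have main : ∀ (t d A C h : ℝ), 0 ≤ t → 0 ≤ d → 0 ≤ C → 2 * C ≤ A → h = t + d →
      A + 2 * h * C ≤ (1 + d) * (A + 2 * t * C) := by
    intro t d A C h ht hd hC hA hh
    have h2 : d * (2 * C) ≤ d * A := mul_le_mul_of_nonneg_left hA hd
    have h3 : 0 ≤ d * (t * C) := by positivity
    rw [hh]
    nlinarith
  refine main _ _ _ _ _ (tt n).2.1 (by positivity) (abs_nonneg _) ?_ ?_
  · rw [abs_mul]
    nlinarith [sq_nonneg (|p.x| - |p.y|), sq_abs p.x, sq_abs p.y]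
  · show (1 / 2 : ℝ) = (1 / 2 - 1 / ((n : ℝ) + 3)) + 1 / ((n : ℝ) + 3)
    ring

lemma almost (ε : ℝ) (hε : 0 < ε) : ∃ f : pts → X, ∀ a b : pts, dist a b ≤ ‖f a - f b‖ ∧
    ‖f a - f b‖ ≤ (1 + ε) * dist a b := by
  obtain ⟨n, hn⟩ := exists_nat_gt (1 / ε)
  have hn3 : (0 : ℝ) < (n : ℝ) + 3 := by positivity
  have hd : 1 / ((n : ℝ) + 3) ≤ ε := by
    rw [div_le_iff₀ hn3]
    rw [div_lt_iff₀ hε] at hn
    nlinarith
  set d : ℝ := 1 / ((n : ℝ) + 3) with hdd
  have hd0 : 0 ≤ d := by positivity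
  refine ⟨fun a => √(1 + d) • (lp.single 2 n (cv n a.1) : X), fun a b => ?_⟩
  have e1 : √(1 + d) • (lp.single 2 n (cv n a.1) : X) - √(1 + d) • (lp.single 2 n (cv n b.1) : X) =
      √(1 + d) • (lp.single 2 n (cv n (a.1 - b.1)) : X) := by
    rw [← smul_sub, ← lp.single_sub]
    rfl
  have e2 : dist a b = ‖a.1 - b.1‖ := by
    rw [Subtype.dist_eq, dist_eq_norm]
  simp only
  rw [e1, e2, norm_smul, lp.norm_single (by norm_num), Real.norm_of_nonneg (Real.sqrt_nonneg _)]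
  have e3 : (√(1 + d) * ‖cv n (a.1 - b.1)‖) ^ 2 = (1 + d) * ‖cv n (a.1 - b.1)‖ ^ 2 := by
    rw [mul_pow, Real.sq_sqrt (by linarith)]
  have h1 := cv_lower n (a.1 - b.1)
  have h2 := cv_upper n (a.1 - b.1)
  rw [← hdd] at h1
  have h0 : 0 ≤ √(1 + d) * ‖cv n (a.1 - b.1)‖ := by positivity
  constructor
  · exact (abs_le_of_sq_le_sq' (by rw [e3]; exact h1) h0).2
  · refine (abs_le_of_sq_le_sq' ?_ (by positivity)).2
    rw [e3, mul_pow]
    have h3 : (1 + d) * ‖cv n (a.1 - b.1)‖ ^ 2 ≤ (1 + d) * ‖a.1 - b.1‖ ^ 2 :=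
      mul_le_mul_of_nonneg_left h2 (by linarith)
    have h4 : (1 + d) ≤ (1 + ε) ^ 2 := by nlinarith
    have h5 := mul_le_mul_of_nonneg_right h4 (sq_nonneg ‖a.1 - b.1‖)
    linarith

lemma mid (u v : X) (r : ℝ) (hu : ‖u‖ = r) (hv : ‖v‖ = r) (huv : ‖u + v‖ = 2 * r) : u = v := by
  have h := ucX u v
  rw [hu, hv, huv] at h
  have h1 : ‖u - v‖ ^ 2 ≤ 0 := by nlinarith
  have h2 : ‖u - v‖ = 0 := by
    have := norm_nonneg (u - v)
    nlinarith
  exact sub_eq_zero.1 (norm_eq_zero.1 h2)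

lemma nhh (a b : ℝ) : ‖(Pl.mk a b : Pl hh)‖ = √(a ^ 2 + b ^ 2 + |a * b|) := by
  have h := nsq hh (Pl.mk a b)
  have h0 : hh.1 = 1 / 2 := rfl
  rw [h0] at h
  simp only [Pl.x_mk, Pl.y_mk] at h
  rw [← Real.sqrt_sq (norm_nonneg (Pl.mk a b : Pl hh)), h]
  congr 1
  ring

lemma not_isometric : ¬ ∃ f : pts → X, ∀ a b : pts, ‖f a - f b‖ = dist a b := by
  rintro ⟨f, hf⟩
  have m0 : (Pl.mk 0 0 : Pl hh) ∈ pts := by unfold pts; simp
  have m1 : (Pl.mk 1 0 : Pl hh) ∈ pts := by unfold pts; simp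
  have m2 : (Pl.mk 0 1 : Pl hh) ∈ pts := by unfold pts; simp
  have m3 : (Pl.mk 1 1 : Pl hh) ∈ pts := by unfold pts; simp
  have m4 : (Pl.mk (-1) 1 : Pl hh) ∈ pts := by unfold pts; simp
  have m5 : (Pl.mk 1 (-1) : Pl hh) ∈ pts := by unfold pts; simp
  have key : ∀ (a b c d : ℝ) (h1 : (Pl.mk a b : Pl hh) ∈ pts) (h2 : (Pl.mk c d : Pl hh) ∈ pts),
      ‖f ⟨_, h1⟩ - f ⟨_, h2⟩‖ = √((a - c) ^ 2 + (b - d) ^ 2 + |(a - c) * (b - d)|) := by
    intro a b c d h1 h2
    rw [hf, Subtype.dist_eq, dist_eq_norm, ← nhh]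
    rfl
  set A := f ⟨_, m0⟩ with hA
  set B := f ⟨_, m1⟩ with hB
  set C := f ⟨_, m2⟩ with hC
  set D := f ⟨_, m3⟩ with hD
  set E := f ⟨_, m4⟩ with hE
  set F := f ⟨_, m5⟩ with hF
  -- the three midpoints
  have s3 : √(12 : ℝ) = 2 * √3 := by
    rw [show (12 : ℝ) = 2 ^ 2 * 3 by norm_num, Real.sqrt_mul (by norm_num), Real.sqrt_sq (by norm_num)]
  have s4 : √(4 : ℝ) = 2 := by
    rw [show (4 : ℝ) = 2 ^ 2 by norm_num, Real.sqrt_sq (by norm_num)]
  -- (0,1) is the midpoint of (-1,1) and (1,1)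
  have p1 : D - C = C - E := by
    apply mid (D - C) (C - E) 1
    · rw [key]; norm_num
    · rw [key]; norm_num
    · rw [sub_add_sub_cancel, key]; norm_num [s4]
  -- (1,0) is the midpoint of (1,-1) and (1,1)
  have p2 : D - B = B - F := by
    apply mid (D - B) (B - F) 1
    · rw [key]; norm_num
    · rw [key]; norm_num
    · rw [sub_add_sub_cancel, key]; norm_num [s4]
  -- (0,0) is the midpoint of (-1,1) and (1,-1)
  have p3 : F - A = A - E := by
    apply mid (F - A) (A - E) (√3)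
    · rw [key]; norm_num
    · rw [key]; norm_num
    · rw [sub_add_sub_cancel, key]; norm_num [s3]
  set U := B - A with hU
  set V := C - A with hV
  have q1 : D - A = U + V := by
    have h : (2 : ℝ) • (D - A) = (2 : ℝ) • (U + V) := by
      rw [two_smul, two_smul, hU, hV]
      have e : D - A + (D - A) = (D - C) + (D - B) + C + B - A - A := by abel
      rw [e]
      have e2 : (D - C) + (D - B) = (C - E) + (B - F) := by rw [p1, p2]
      rw [e2]
      have e3 : C - E + (B - F) + C + B - A - A = (C + C + B + B - A - A - A - A) - ((F - A) - (A - E)) := by abel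
      rw [e3, p3, sub_self]
      abel
    exact smul_right_injective X (two_ne_zero' ℝ) h
  have q2 : F - A = U - V := by
    have e : F - A = (U + U) - (D - A) := by
      rw [hU]
      have e1 : F = B - (D - B) := by rw [p2]; abel
      rw [e1]
      abel
    rw [e, q1]
    abel
  have n1 : ‖U‖ = 1 := by rw [hU, key]; norm_num
  have n2 : ‖V‖ = 1 := by rw [hV, key]; norm_num
  have n3 : ‖U + V‖ ^ 2 = 3 := by rw [← q1, key]; norm_num
  have n4 : ‖U - V‖ ^ 2 = 3 := by rw [← q2, key]; norm_num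
  have hU0 : U ≠ 0 := by
    intro h
    rw [h, norm_zero] at n1
    norm_num at n1
  have := lcX U V hU0
  rw [n1, n2, n3, n4] at this
  norm_num at this

/-- There are an infinite-dimensional uniformly convex Banach space `X` and a finite metric space `M` which
embeds almost isometrically, but not isometrically, into `X`. -/
theorem result : ∃ (X : Type) (_ : NormedAddCommGroup X) (_ : NormedSpace ℝ X),
    CompleteSpace X ∧ ¬ FiniteDimensional ℝ X ∧
    (∀ ε : ℝ, 0 < ε → ε ≤ 2 → ∃ δ : ℝ, 0 < δ ∧ ∀ x y : X, ‖x‖ ≤ 1 → ‖y‖ ≤ 1 → ε ≤ ‖x - y‖ →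
      ‖(2⁻¹ : ℝ) • (x + y)‖ ≤ 1 - δ) ∧
    ∃ (M : Type) (_ : MetricSpace M) (_ : Finite M),
      (∀ ε : ℝ, 0 < ε → ∃ f : M → X, ∀ a b : M,
        dist a b ≤ ‖f a - f b‖ ∧ ‖f a - f b‖ ≤ (1 + ε) * dist a b) ∧
      ¬ ∃ f : M → X, ∀ a b : M, ‖f a - f b‖ = dist a b :=
  ⟨X, inferInstance, inferInstance, inferInstance, not_fd, convex, pts, inferInstance, pts_finite.to_subtype,
    almost, not_isometric⟩

end Pool.Agent.Results.MP_6d826c_an.GridInSumOfPlanes
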